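import Pool.Agent.MP_ed9623_an.H77.SpecW

/-! Normal derivatives from the equation, and the equation of the tangential derivative. -/

open MeasureTheory Filter Topology Set
open scoped ContDiff

namespace Pool.Agent.MP_ed9623_an.H77

open H64

namespace Nor

variable {O : Set P} {γ : ℝ → ℝ} {σ r : ℝ} {W F f g : P → ℝ} {d dY : Fin 2 → P → ℝ}

theorem pd1_fst {u : ℝ → ℝ} (hu : ContDiff ℝ ∞ u) (p : P) :
    pd (ee 1) (fun p : P => u p.1) p = 0 := by
  refine HD.pd_eq ?_ (sm_diff (hu.comp contDiff_fst) p)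
  simpa [HD, ee] using hasDerivAt_const (0 : ℝ) (u p.1)

/-- A factor depending on the first variable passes through the second derivative. -/
theorem smul1 {u : ℝ → ℝ} (hu : ContDiff ℝ ∞ u) (h : WD O (ee 1) f g) (hf : M2 f) (hg : M2 g) :
    WD O (ee 1) (fun p => u p.1 * f p) fun p => u p.1 * g p := by
  have := h.smul hf hg (hu.comp contDiff_fst)
  refine this.congr (Eventually.of_forall fun _ _ => rfl) (Eventually.of_forall fun p _ => ?_)
  have e := pd1_fst hu p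
  simp only [Function.comp_def] at e ⊢
  rw [e, zero_mul, add_zero]

theorem smul0 (hγ : Gam γ) (h : WD O (ee 0) f g) (hf : M2 f) (hg : M2 g) :
    WD O (ee 0) (fun p => γ p.1 * f p) fun p => γ p.1 * g p + deriv γ p.1 * f p := by
  have := h.smul hf hg hγ.smP
  refine this.congr (Eventually.of_forall fun _ _ => rfl) (Eventually.of_forall fun p _ => ?_)
  rw [hγ.pd0]

/-- The normal derivative of the tangential derivative. -/
theorem wy_s (hγ : Gam γ) (h : H1O O γ W d) (hY : WD O (ee 0) (d 1) (dY 1)) :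
    WD O (ee 1) (fun p => d 0 p + deriv γ p.1 * d 1 p) (dY 1) :=
  (h.wd0 hγ).comm h.wd1 hY

theorem sm_inv (hγ : Gam γ) : ContDiff ℝ ∞ fun y => (1 + deriv γ y ^ 2)⁻¹ :=
  (contDiff_const.add (hγ.deriv.sm.pow 2)).inv fun y => by positivity

theorem m2_nS (hγ : Gam γ) (hF : M2 F) (hY : ∀ i, M2 (dY i)) : M2 (nS γ F dY) := by
  have h0 : M2 fun p => -F p - dY 0 p + deriv γ p.1 * dY 1 p :=
    (hF.neg.sub (hY 0)).add ((hY 1).gmul hγ.deriv)
  have h1 := h0.bmul (m := fun p : P => (1 + deriv γ p.1 ^ 2)⁻¹) (C := 1)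
    ((sm_inv hγ).comp contDiff_fst).continuous.aestronglyMeasurable
    (Eventually.of_forall fun p => by
      rw [abs_of_nonneg (by positivity)]
      exact inv_le_one_of_one_le₀ (by nlinarith [sq_nonneg (deriv γ p.1)]))
  refine h1.congr (Eventually.of_forall fun p => ?_)
  simp only [nS]
  rw [div_eq_inv_mul]

theorem part1 (hγ : Gam γ) (h : So γ σ r W d F) (mY : ∀ i, M2 (dY i))
    (hY : ∀ i, WD (Qp σ r) (ee 0) (d i) (dY i)) : WD (Qp σ r) (ee 1) (d 1) (nS γ F dY) := by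
  have h1 := h.h1.mono (Qp_sub σ r)
  have m0 := h1.md 0
  have m1 := h1.md 1
  have mg1 := m1.gmul hγ.deriv
  have mW := m0.add mg1
  have a := smul1 hγ.deriv.sm (wy_s hγ h1 (hY 1)) mW (mY 1)
  have mN : M2 fun p => -F p - dY 0 p + deriv γ p.1 * dY 1 p :=
    (h.mF.neg.sub (mY 0)).add ((mY 1).gmul hγ.deriv)
  have mL : M2 fun p => d 1 p + deriv γ p.1 * (deriv γ p.1 * d 1 p) := m1.add (mg1.gmul hγ.deriv)
  have b : WD (Qp σ r) (ee 1) (fun p => d 1 p + deriv γ p.1 * (deriv γ p.1 * d 1 p))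
      fun p => -F p - dY 0 p + deriv γ p.1 * dY 1 p := fun φ hφ => by
    have e := h.eq φ hφ
    have a1 := a φ hφ
    have a2 := hY 0 φ hφ
    have t0 := (hφ.pd (ee 0)).m2
    have t1 := (hφ.pd (ee 1)).m2
    have i1 := m0.int_mul t0
    have i2 := (m0.gmul hγ.deriv).int_mul t1
    have i3 := m1.int_mul t1
    have i4 := (mg1.gmul hγ.deriv).int_mul t1
    have j1 := h.mF.int_mul hφ.m2
    have j2 := (mY 0).int_mul hφ.m2
    have j3 := ((mY 1).gmul hγ.deriv).int_mul hφ.m2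
    rw [Fin.sum_univ_two, dd1] at e
    have e1 : (fun x => d 0 x * dd γ 0 φ x)
        = fun x => d 0 x * pd (ee 0) φ x - deriv γ x.1 * d 0 x * pd (ee 1) φ x :=
      funext fun x => by rw [dd0]; ring
    have e2 : (fun x => deriv γ x.1 * (d 0 x + deriv γ x.1 * d 1 x) * pd (ee 1) φ x)
        = fun x => deriv γ x.1 * d 0 x * pd (ee 1) φ x
          + deriv γ x.1 * (deriv γ x.1 * d 1 x) * pd (ee 1) φ x := funext fun x => by ring
    have e3 : (fun x => (d 1 x + deriv γ x.1 * (deriv γ x.1 * d 1 x)) * pd (ee 1) φ x)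
        = fun x => d 1 x * pd (ee 1) φ x
          + deriv γ x.1 * (deriv γ x.1 * d 1 x) * pd (ee 1) φ x := funext fun x => by ring
    have e4 : (fun x => (-F x - dY 0 x + deriv γ x.1 * dY 1 x) * φ x)
        = fun x => deriv γ x.1 * dY 1 x * φ x - (F x * φ x + dY 0 x * φ x) :=
      funext fun x => by ring
    rw [e1, integral_sub i1 i2] at e
    rw [e2, integral_add i2 i4] at a1
    have j4 : Integrable fun x => F x * φ x + dY 0 x * φ x := j1.add j2
    rw [e3, e4, integral_add i3 i4, integral_sub j3 j4, integral_add j1 j2]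
    beta_reduce at a1
    linarith
  refine (smul1 (sm_inv hγ) b mL mN).congr (Eventually.of_forall fun p _ => ?_)
    (Eventually.of_forall fun p _ => ?_)
  · have : 1 + deriv γ p.1 ^ 2 ≠ 0 := by positivity
    field_simp
  · simp only [nS]
    rw [div_eq_inv_mul]

theorem part2 (hγ : Gam γ) (h : H1O O γ W d) (mY : ∀ i, M2 (dY i))
    (hY : WD O (ee 0) (d 1) (dY 1)) (mg : M2 g) (hS : WD O (ee 1) (d 1) g) :
    WD O (ee 1) (d 0) fun p => dY 1 p - deriv γ p.1 * g p := by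
  have m1 := (h.md 1).gmul hγ.deriv
  refine ((wy_s hγ h hY).sub (smul1 hγ.deriv.sm hS (h.md 1) mg) ((h.md 0).add m1) (mY 1) m1
    (mg.gmul hγ.deriv)).congr (Eventually.of_forall fun p _ => ?_)
    (Eventually.of_forall fun p _ => rfl)
  ring

theorem pd_dd0 (hγ : Gam γ) {φ : P → ℝ} (hφ : ContDiff ℝ ∞ φ) (p : P) :
    dd γ 0 (pd (ee 0) φ) p
      = pd (ee 0) (dd γ 0 φ) p + deriv (deriv γ) p.1 * pd (ee 1) φ p := by
  have e : dd γ 0 φ = fun p => pd (ee 0) φ p - deriv γ p.1 * pd (ee 1) φ p := rfl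
  rw [e, dd0, pd_sub (ee 0) (sm_diff (sm_pd hφ _) p)
    (sm_diff (hγ.deriv.smP.mul (sm_pd hφ _)) p),
    pd_mul (ee 0) (sm_diff hγ.deriv.smP p) (sm_diff (sm_pd hφ _) p), hγ.deriv.pd0,
    pd_comm_sm hφ (ee 1) (ee 0)]
  ring

theorem part3 (hγ : Gam γ) (h : So γ σ r W d F) (mY : ∀ i, M2 (dY i)) {dS : Fin 2 → P → ℝ}
    {FY : P → ℝ} (mS : ∀ i, M2 (dS i)) (mF : M2 FY) (hY : ∀ i, WD (Q r) (ee 0) (d i) (dY i))
    (hS : ∀ i, WD (Qp σ r) (ee 1) (d i) (dS i)) (hF : WD (Qp σ r) (ee 0) F FY) :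
    So γ σ r (fun p => d 0 p + deriv γ p.1 * d 1 p) (tD γ d dY) (tF γ d dS FY) := by
  have g1 := hγ.deriv
  have g2 := g1.deriv
  have g3 := g2.deriv
  have m0 := h.h1.md 0
  have m1 := h.h1.md 1
  have mW := m0.add (m1.gmul g1)
  have hY' := fun i => (hY i).mono (Qp_sub σ r)
  refine ⟨?_, ?_, ?_, fun φ hφ => ?_⟩
  · have a := (hY 0).add (smul0 g1 (hY 1) m1 (mY 1)) m0 (mY 0) (m1.gmul g1)
      (((mY 1).gmul g1).add (m1.gmul g2))
    refine (H1O.of_wd hγ mW ((mY 0).add (((mY 1).gmul g1).add (m1.gmul g2))) (mY 1) a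
      (wy_s hγ h.h1 (hY 1))).congr EventuallyEq.rfl fun i => Eventually.of_forall fun p => ?_
    fin_cases i
    · simp [tD]; ring
    · simp [tD]
  · exact (mF.sub (((mS 0).gmul g2).cmul 2)).sub (m1.gmul g3)
  · exact (h.h1.van_low hγ h.van 0).add ((h.h1.van_low hγ h.van 1).smul fun p => deriv γ p.1)
  · have u := WD.uniq (isOpen_Qp σ r) (hS 0)
      (part2 hγ (h.h1.mono (Qp_sub σ r)) mY (hY' 1) (mS 1) (hS 1)) (mS 0)
      ((mY 1).sub ((mS 1).gmul g1))
    have e := h.eq _ (hφ.pd (ee 0))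
    have tD0 := hφ.dd hγ 0
    have a1 := hY' 0 _ tD0
    have a2 := smul1 g2.sm (hS 0) m0 (mS 0) φ hφ
    have a3 := hY' 1 _ (hφ.pd (ee 1))
    have a4 := hF φ hφ
    have a5 := (H1O.of_wd hγ (m1.gmul g2) (((mY 1).gmul g2).add (m1.gmul g3)) ((mS 1).gmul g2)
      (smul0 g2 (hY' 1) m1 (mY 1)) (smul1 g2.sm (hS 1) m1 (mS 1))).w 0 φ hφ
    have a6 : ∫ x, (deriv (deriv γ) x.1 * dY 1 x + deriv (deriv (deriv γ)) x.1 * d 1 x
          - deriv γ x.1 * (deriv (deriv γ) x.1 * dS 1 x)) * φ x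
        = ∫ x, (deriv (deriv γ) x.1 * dS 0 x + deriv (deriv (deriv γ)) x.1 * d 1 x) * φ x :=
      int_test_congr (O := Qp σ r) (fun _ => hφ.off) (u.mono fun p hp ho => by rw [hp ho]; ring)
    change ∫ x, deriv (deriv γ) x.1 * d 1 x * dd γ 0 φ x = -∫ x, (deriv (deriv γ) x.1 * dY 1 x
      + deriv (deriv (deriv γ)) x.1 * d 1 x
        - deriv γ x.1 * (deriv (deriv γ) x.1 * dS 1 x)) * φ x at a5
    rw [a6] at a5
    rw [Fin.sum_univ_two, dd1, pd_comm_sm hφ.1 (ee 1) (ee 0)] at e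
    have e1 : (fun x => d 0 x * dd γ 0 (pd (ee 0) φ) x) = fun x => d 0 x * pd (ee 0) (dd γ 0 φ) x
        + deriv (deriv γ) x.1 * d 0 x * pd (ee 1) φ x :=
      funext fun x => by rw [pd_dd0 hγ hφ.1]; ring
    rw [e1, integral_add (m0.int_mul (tD0.pd _).m2) ((m0.gmul g2).int_mul (hφ.pd _).m2)] at e
    have j1 := mF.int_mul hφ.m2
    have j2 := ((mS 0).gmul g2).int_mul hφ.m2
    have j3 := (m1.gmul g3).int_mul hφ.m2
    simp only [add_mul] at a5
    rw [integral_add j2 j3] at a5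
    rw [Fin.sum_univ_two, dd1]
    change (∫ x, (dY 0 x + deriv (deriv γ) x.1 * d 1 x) * dd γ 0 φ x)
      + ∫ x, dY 1 x * pd (ee 1) φ x = _
    have e2 : (fun x => tF γ d dS FY x * φ x) = fun x => FY x * φ x
        - (deriv (deriv γ) x.1 * dS 0 x * φ x + deriv (deriv γ) x.1 * dS 0 x * φ x)
        - deriv (deriv (deriv γ)) x.1 * d 1 x * φ x := funext fun x => by simp only [tF]; ring
    have j4 : Integrable fun x => deriv (deriv γ) x.1 * dS 0 x * φ x
      + deriv (deriv γ) x.1 * dS 0 x * φ x := j2.add j2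
    have j5 : Integrable fun x => FY x * φ x - (deriv (deriv γ) x.1 * dS 0 x * φ x
      + deriv (deriv γ) x.1 * dS 0 x * φ x) := j1.sub j4
    simp only [add_mul]
    rw [e2, integral_add ((mY 0).int_mul tD0.m2) ((m1.gmul g2).int_mul tD0.m2),
      integral_sub j5 j3, integral_sub j1 j4, integral_add j2 j2]
    beta_reduce at a2
    linarith

end Nor

theorem rowNor : OfNor := fun _ σ r _ _ _ _ hγ h mY =>
  ⟨fun hY => ⟨Nor.m2_nS hγ h.mF mY, Nor.part1 hγ h mY hY,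
    Nor.part2 hγ (h.h1.mono (Qp_sub σ r)) mY (hY 1) (Nor.m2_nS hγ h.mF mY)
      (Nor.part1 hγ h mY hY)⟩,
    fun _ _ mS mF hY hS hF => Nor.part3 hγ h mY mS mF hY hS hF⟩

end Pool.Agent.MP_ed9623_an.H77
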