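import Pool.Agent.MP_ed9623_an.H77.SpecW

/-! The trace equation, and gradients as test fields. -/

open MeasureTheory Filter Topology Set
open scoped ContDiff

namespace Pool.Agent.MP_ed9623_an.H77

open H64

namespace TrI

variable {a w z d G : Fin 2 → P → ℝ} {da dw dz : Fin 2 → Fin 2 → P → ℝ} {f g u h φ : P → ℝ}

theorem wd (hw : VF (fun _ => 0) w dw) (j i : Fin 2) : WD univ (ee i) (w j) (dw j i) :=
  ((H1O.zero_iff.1 (hw.h1 j)).2 i).2

theorem div_int (hw : VF (fun _ => 0) w dw) (hφ : Test univ φ) :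
    (∫ x, dw 0 0 x * φ x) + ∫ x, dw 1 1 x * φ x = 0 := by
  rw [← integral_add (((hw.h1 0).md 0).int_mul hφ.m2) (((hw.h1 1).md 1).int_mul hφ.m2)]
  refine integral_eq_zero_of_ae (hw.dv.mono fun x hx => ?_)
  change dw 0 0 x * φ x + dw 1 1 x * φ x = 0
  rw [← add_mul, hx, zero_mul]

/-- The derivatives of a divergence-free field are divergence-free. -/
theorem div_der (hw : VF (fun _ => 0) w dw) (i : Fin 2) (φ : P → ℝ) (hφ : Test univ φ) :
    ∑ j, ∫ x, dw j i x * pd (ee j) φ x = 0 := by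
  have e : ∀ j, ∫ x, dw j i x * pd (ee j) φ x = ∫ x, dw j j x * pd (ee i) φ x := fun j => by
    have a := wd hw j i _ (hφ.pd (ee j))
    have b := wd hw j j _ (hφ.pd (ee i))
    rw [pd_comm_sm hφ.1] at a
    linarith
  rw [Fin.sum_univ_two, e, e]
  exact div_int hw (hφ.pd _)

theorem close {δ : ℝ} (hu : M2 u) (hf : M2 f) (hg : M2 g) (h : nm (fun p => g p - f p) ≤ δ) :
    |(∫ x, u x * g x) - ∫ x, u x * f x| ≤ nm u * δ := by
  rw [← integral_sub (hu.int_mul hg) (hu.int_mul hf)]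
  simp only [← mul_sub]
  exact (abs_int_le hu (hg.sub hf)).trans (mul_le_mul_of_nonneg_left h (nm_nonneg u))

/-- A divergence-free field is orthogonal to the gradients of localised `H¹` functions. -/
theorem dens (h1 : Mol1S) (h2 : Mol2S) (hf : H1 (fun _ => 0) f d) (hh : Test univ h)
    (hG : ∀ j, M2 (G j)) (h0 : ∀ φ, Test univ φ → ∑ j, ∫ x, G j x * pd (ee j) φ x = 0) :
    ∑ j, ((∫ x, h x * G j x * d j x) + ∫ x, pd (ee j) h x * G j x * f x) = 0 := by
  set K := ∑ j, (nm (fun x => h x * G j x) + nm fun x => pd (ee j) h x * G j x) with hK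
  have K0 : 0 ≤ K := Finset.sum_nonneg fun j _ => add_nonneg (nm_nonneg _) (nm_nonneg _)
  refine abs_nonpos_iff.1 (le_of_forall_pos_le_add fun η η0 => ?_)
  have δ0 : 0 < η / (K + 1) := by positivity
  obtain ⟨ε₀, e0, k0⟩ := h2.2.2.2 f hf.m _ δ0
  obtain ⟨ε₁, e1, k1⟩ := h2.2.2.2 _ (hf.md 0) _ δ0
  obtain ⟨ε₂, e2, k2⟩ := h2.2.2.2 _ (hf.md 1) _ δ0
  have e3 : 0 < min ε₀ (min ε₁ ε₂) := lt_min e0 (lt_min e1 e2)
  obtain ⟨k, hk, -⟩ := h2.1 _ _ Metric.isOpen_ball (Metric.nonempty_ball.2 e3) Subset.rfl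
  have c0 := k0 _ k (min_le_left _ _) hk
  have c : ∀ j, nm (fun p => mol k (d j) p - d j p) ≤ η / (K + 1) := fun j => by
    fin_cases j
    · exact k1 _ k ((min_le_right _ _).trans (min_le_left _ _)) hk
    · exact k2 _ k ((min_le_right _ _).trans (min_le_right _ _)) hk
  obtain ⟨s1, s2⟩ := (h1 k hk.test).1 f hf.m
  have m0 := (h2.2.1 _ k f hk hf.m).1
  have m1 := fun j => (h2.2.1 _ k _ hk (hf.md j)).1
  have e := h0 _ (hh.smul s1)
  have e' : ∀ j, ∫ x, G j x * pd (ee j) (fun x => mol k f x * h x) x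
      = (∫ x, h x * G j x * mol k (d j) x) + ∫ x, pd (ee j) h x * G j x * mol k f x := fun j => by
    rw [← integral_add (((hG j).tmul hh).int_mul (m1 j)) (((hG j).tmul (hh.pd _)).int_mul m0)]
    refine integral_congr_ae (Eventually.of_forall fun x => ?_)
    beta_reduce
    rw [pd_mul _ (sm_diff s1 x) (sm_diff hh.1 x), s2,
      mol_wd hk.test ((H1O.zero_iff.1 hf).2 j).2 fun _ _ => trivial]
    ring
  simp only [e'] at e
  have b : ∀ j, |((∫ x, h x * G j x * d j x) + ∫ x, pd (ee j) h x * G j x * f x)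
      - ((∫ x, h x * G j x * mol k (d j) x) + ∫ x, pd (ee j) h x * G j x * mol k f x)|
      ≤ (nm (fun x => h x * G j x) + nm fun x => pd (ee j) h x * G j x) * (η / (K + 1)) :=
    fun j => by
      have x1 := abs_le.1 (close ((hG j).tmul hh) (hf.md j) (m1 j) (c j))
      have x2 := abs_le.1 (close ((hG j).tmul (hh.pd (ee j))) hf.m m0 c0)
      rw [add_mul]
      exact abs_le.2 ⟨by linarith [x1.2, x2.2], by linarith [x1.1, x2.1]⟩
  rw [zero_add, ← sub_zero (∑ j, _), ← e, ← Finset.sum_sub_distrib]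
  refine (Finset.abs_sum_le_sum_abs _ _).trans ((Finset.sum_le_sum fun j _ => b j).trans ?_)
  rw [← Finset.sum_mul, ← hK, ← mul_div_assoc, div_le_iff₀ (by positivity)]
  nlinarith

theorem grad_eq (h : P → ℝ) (j : Fin 2) : grad (fun _ => 0) h j = pd (ee j) h := dd_zero j h

theorem int_trc (ha : VF (fun _ => 0) a da) (hw : VF (fun _ => 0) w dw) :
    Integrable (trc da dw) :=
  integrable_finsetSum _ fun i _ => integrable_finsetSum _ fun j _ =>
    ((ha.h1 j).md i).int_mul ((hw.h1 i).md j)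

theorem tl_grad (h1 : Mol1S) (h2 : Mol2S) (hp : PrdS) (ha : VF (fun _ => 0) a da)
    (hw : VF (fun _ => 0) w dw) (hh : Test univ h) :
    tl (fun _ => 0) a w (grad (fun _ => 0) h) = ∫ x, trc da dw x * h x := by
  have e := fun i => dens h1 h2 (ha.h1 i) hh (fun j => (hw.h1 j).md i) (div_der hw i)
  have i1 := fun i j => (((hw.h1 j).md i).tmul hh).int_mul ((ha.h1 i).md j)
  have i2 := fun i j => (((hw.h1 j).md i).tmul (hh.pd (ee j))).int_mul (ha.h1 i).m
  have e1 : ∀ j, ∫ x, (∑ i, a i x * dw j i x) * pd (ee j) h x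
      = ∑ i, ∫ x, pd (ee j) h x * dw j i x * a i x := fun j => by
    rw [← integral_finsetSum _ fun i _ => i2 i j]
    refine integral_congr_ae (Eventually.of_forall fun x => ?_)
    simp only [Fin.sum_univ_two]
    ring
  have e2 : ∫ x, trc da dw x * h x = ∑ i, ∑ j, ∫ x, h x * dw j i x * da i j x := by
    simp only [← integral_finsetSum _ fun j _ => i1 _ j]
    rw [← integral_finsetSum _ fun i _ => integrable_finsetSum _ fun j _ => i1 i j]
    refine integral_congr_ae (Eventually.of_forall fun x => ?_)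
    simp only [trc, Fin.sum_univ_two]
    ring
  rw [hp.2 _ _ _ (grad (fun _ => 0) h) _ _ Gam.zero ha hw.h1 fun j => hh.dd Gam.zero j, e2]
  simp only [ip, grad_eq, e1]
  have a0 := e 0
  have a1 := e 1
  simp only [Fin.sum_univ_two] at a0 a1 ⊢
  linarith

theorem e1_grad (h1 : Mol1S) (h2 : Mol2S) (hp : PrdS) (ha : VF (fun _ => 0) a da)
    (hw : VF (fun _ => 0) w dw) (hz : VF (fun _ => 0) z dz) (hh : Test univ h) :
    E1 (fun _ => 0) a w dw z (grad (fun _ => 0) h) ↔ ∫ x, trc da dw x * h x = 0 := by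
  have a1 : ip z (grad (fun _ => 0) h) = 0 := by
    simp only [ip, grad_eq, Fin.sum_univ_two, wd hz _ _ h hh]
    linarith [div_int hz hh]
  have a2 : di (fun _ => 0) dw (grad (fun _ => 0) h) = 0 := by
    unfold di
    rw [Finset.sum_comm]
    refine Finset.sum_eq_zero fun i _ => (Finset.sum_congr rfl fun j _ => ?_).trans
      (div_der hw i _ (hh.pd (ee i)))
    rw [grad_eq, dd_zero, pd_comm_sm hh.1]
  have a3 : trc dw da = trc da dw := funext fun x => by
    simp only [trc, Fin.sum_univ_two]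
    ring
  unfold E1
  rw [a1, a2, tl_grad h1 h2 hp ha hw hh, tl_grad h1 h2 hp hw ha hh, a3]
  constructor <;> intro h <;> linarith

end TrI

theorem rowTrI : OfTrI := fun h1 h2 hp Ω a w z da dw dz hΩ ha hw hz hv he => by
  have t : ∀ᵐ p, trc da dw p = 0 := by
    refine Van.all (van_of_int hΩ (TrI.int_trc ha hw).locallyIntegrable fun φ hφ =>
      (TrI.e1_grad h1 h2 hp ha hw hz hφ.top).1 (he _ fun j => hφ.dd Gam.zero j)) ?_
    filter_upwards [hv 0 0, hv 0 1, hv 1 0, hv 1 1] with p b c d e hp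
    simp only [trc, Fin.sum_univ_two, b hp, c hp, d hp, e hp, zero_mul, add_zero]
  refine ⟨t, fun h hh => (TrI.e1_grad h1 h2 hp ha hw hz hh).2 ?_⟩
  exact integral_eq_zero_of_ae (t.mono fun p hp => by simp only [hp, zero_mul, Pi.zero_apply])

end Pool.Agent.MP_ed9623_an.H77
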