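import Pool.Agent.MP_ed9623_an.H77.SpecZ

/-! Interior second order bounds for all time derivatives. -/

open MeasureTheory Filter Topology Set
open scoped ContDiff

namespace Pool.Agent.MP_ed9623_an.H77

open H64

namespace Boot0

variable {t₀ ρ : ℝ} {F G : ℝ → P → ℝ} {V W : ℝ → E6}

/-- Square integrable, with a norm bounded near `t₀`. -/
def Lb (t₀ : ℝ) (F : ℝ → P → ℝ) : Prop :=
  ∃ M : ℝ, 0 ≤ M ∧ ∀ᶠ t in 𝓝 t₀, M2 (F t) ∧ nm (F t) ≤ M

/-- The gradient is in `H¹(Q ρ)`, with a norm bounded near `t₀`. -/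
def Reg (t₀ ρ : ℝ) (V : ℝ → E6) : Prop :=
  ∃ M : ℝ, 0 ≤ M ∧ ∀ᶠ t in 𝓝 t₀, ∀ j i, HB (Q ρ) 1 (gj (V t) j i) M

theorem Lb.add (h : Lb t₀ F) (h' : Lb t₀ G) : Lb t₀ fun t p => F t p + G t p := by
  obtain ⟨M, m0, hM⟩ := h
  obtain ⟨M', m0', hM'⟩ := h'
  refine ⟨M + M', add_nonneg m0 m0', ?_⟩
  filter_upwards [hM, hM'] with t a b
  exact ⟨a.1.add b.1, (nm_add_le a.1 b.1).trans (add_le_add a.2 b.2)⟩

theorem Lb.cmul (h : Lb t₀ F) (c : ℝ) : Lb t₀ fun t p => c * F t p := by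
  obtain ⟨M, m0, hM⟩ := h
  refine ⟨|c| * M, mul_nonneg (abs_nonneg c) m0, hM.mono fun t a => ⟨a.1.cmul c, ?_⟩⟩
  rw [nm_cmul]
  exact mul_le_mul_of_nonneg_left a.2 (abs_nonneg c)

theorem Lb.sub (h : Lb t₀ F) (h' : Lb t₀ G) : Lb t₀ fun t p => F t p - G t p := by
  simpa only [neg_one_mul, sub_eq_add_neg] using h.add (h'.cmul (-1))

theorem Lb.const {f : P → ℝ} (hf : M2 f) : Lb t₀ fun _ => f :=
  ⟨nm f, nm_nonneg f, Eventually.of_forall fun _ => ⟨hf, le_rfl⟩⟩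

theorem Lb.sum {ι : Type} {s : Finset ι} {F : ι → ℝ → P → ℝ} (h : ∀ i ∈ s, Lb t₀ (F i)) :
    Lb t₀ fun t p => ∑ i ∈ s, F i t p := by
  classical
  induction s using Finset.induction_on with
  | empty => simpa using Lb.const M2.zero
  | insert a s ha ih =>
    simp only [Finset.sum_insert ha]
    exact (h a (Finset.mem_insert_self a s)).add
      (ih fun i hi => h i (Finset.mem_insert_of_mem hi))

theorem bound (hV : Continuous V) (t₀ : ℝ) : ∃ R : ℝ, 0 ≤ R ∧ ∀ᶠ t in 𝓝 t₀, ‖V t‖ ≤ R :=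
  ⟨‖V t₀‖ + 1, by positivity, (hV.norm.continuousAt.eventually
    (gt_mem_nhds (lt_add_one ‖V t₀‖))).mono fun _ h => h.le⟩

theorem Lb.vl (hV : Continuous V) (j : Fin 2) : Lb t₀ fun t => vl (V t) j := by
  obtain ⟨R, r0, hR⟩ := bound hV t₀
  exact ⟨R, r0, hR.mono fun t a => ⟨m2_vl _ _, (nm_co_le _ _).trans a⟩⟩

theorem wd_co {v : E6} (hv : v ∈ VZ univ) (O : Set P) (j i : Fin 2) :
    WD O (ee i) (vl v j) (gj v j i) :=
  ((H1O.zero_iff.1 ((mem_VZ.1 hv).1.h1 j)).2 i).2.mono (subset_univ O)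

theorem step (h2 : H2S) {r' ϑ : ℝ} (h0 : 0 < r') (h1 : r' < ρ) (hϑ : |ϑ| ≤ 1)
    (hV : Continuous V) (hv : ∀ t, V t ∈ VZ univ) {f : ℝ → Fin 2 → P → ℝ}
    (hf : ∀ j, Lb t₀ fun t => f t j) (he : ∀ᶠ t in 𝓝 t₀, ∀ θ, Test (Q ρ) θ →
      E2 (fun _ => 0) ϑ (vl (V t)) (gj (V t)) (f t) θ) : Reg t₀ r' V := by
  obtain ⟨R, r0, hR⟩ := bound hV t₀
  obtain ⟨M, m0, hM⟩ := hf 0
  obtain ⟨M', m0', hM'⟩ := hf 1
  obtain ⟨C, c0, hC⟩ := h2 ρ r' (R + M + M') h0 h1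
  refine ⟨C, c0, ?_⟩
  filter_upwards [hR, hM, hM', he] with t a b c d
  refine hC ϑ _ _ _ hϑ ⟨(mem_VZ.1 (hv t)).1, fun j => ⟨?_, fun i => ?_⟩, fun j => ?_,
    fun j => Eventually.of_forall fun p hp => absurd hp.1 hp.2, d⟩
  · linarith [(nb_norm (V t) j).1]
  · linarith [(nb_norm (V t) j).2 i]
  · fin_cases j
    · exact ⟨b.1, b.2.trans (by linarith)⟩
    · exact ⟨c.1, c.2.trans (by linarith)⟩

theorem prodA (hb : HbS) (hm : MixS) (hV : Continuous V) (hW : Continuous W)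
    (hv : ∀ t, V t ∈ VZ univ) (h : Reg t₀ ρ V) (l j i : Fin 2) :
    Lb t₀ fun t => (Q ρ).indicator fun p => vl (V t) l p * gj (W t) j i p := by
  obtain ⟨R, r0, hR⟩ := bound hV t₀
  obtain ⟨R', r0', hR'⟩ := bound hW t₀
  obtain ⟨M, m0, hM⟩ := h
  obtain ⟨C, c0, -, -, hC⟩ := hm (-ρ) ρ (-ρ) ρ
  have b0 : 0 ≤ C * (R + R + R + M) := by positivity
  refine ⟨C * (R + R + R + M) * R', by positivity, ?_⟩
  filter_upwards [hR, hR', hM] with t a b c
  obtain ⟨g, hg⟩ := hb.1 (Q ρ) 0 _ M (m2_gj _ _ _) m0 (c l 1)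
  have k := hC _ _ _ _ (m2_vl (V t) l) (m2_gj _ l 0) (m2_gj _ l 1) (hg 0).1
    (wd_co (hv t) _ l 0) (wd_co (hv t) _ l 1) (hg 0).2.2.1
  have k' : ∀ᵐ p, |(Q ρ).indicator (vl (V t) l) p| ≤ C * (R + R + R + M) := by
    filter_upwards [k] with p hp
    by_cases hq : p ∈ Q ρ
    · rw [indicator_of_mem hq]
      refine (hp hq).trans (mul_le_mul_of_nonneg_left ?_ c0)
      linarith [(nb_norm (V t) l).1, (nb_norm (V t) l).2 0, (nb_norm (V t) l).2 1, (hg 0).2.1]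
    · rw [indicator_of_notMem hq, abs_zero]
      exact b0
  have e : ((Q ρ).indicator fun p => vl (V t) l p * gj (W t) j i p)
      = fun p => (Q ρ).indicator (vl (V t) l) p * gj (W t) j i p := by
    funext p
    by_cases hq : p ∈ Q ρ <;> simp [hq]
  rw [e]
  exact ⟨(m2_gj _ j i).bmul ((m2_vl _ l).ind (isOpen_Q ρ).measurableSet).meas k',
    (nm_bmul (m2_gj _ j i) b0 k').trans
      (mul_le_mul_of_nonneg_left (((nb_norm (W t) j).2 i).trans b) b0)⟩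

theorem prodB (hb : HbS) (hm : MixS) (hV : Continuous V) (hW : Continuous W)
    (hv : ∀ t, V t ∈ VZ univ) (h : Reg t₀ ρ W) (l j i : Fin 2) :
    Lb t₀ fun t => (Q ρ).indicator fun p => vl (V t) l p * gj (W t) j i p := by
  obtain ⟨R, r0, hR⟩ := bound hV t₀
  obtain ⟨R', r0', hR'⟩ := bound hW t₀
  obtain ⟨M, m0, hM⟩ := h
  obtain ⟨C, c0, -, hC, -⟩ := hm (-ρ) ρ (-ρ) ρ
  refine ⟨C * ((R' + M) * (R + R)), by positivity, ?_⟩
  filter_upwards [hR, hR', hM] with t a b c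
  obtain ⟨g, hg⟩ := hb.1 (Q ρ) 0 _ M (m2_gj _ _ _) m0 (c j i)
  obtain ⟨k, k'⟩ := hC _ _ _ _ (m2_gj (W t) j i) (hg 0).1 (m2_vl (V t) l) (m2_gj _ l 1)
    (hg 0).2.2.1 (wd_co (hv t) _ l 1)
  refine ⟨k, k'.trans (mul_le_mul_of_nonneg_left (mul_le_mul ?_ ?_
    (add_nonneg (nm_nonneg _) (nm_nonneg _)) (by positivity)) c0)⟩
  · linarith [(nb_norm (W t) j).2 i, (hg 0).2.1]
  · linarith [(nb_norm (V t) l).1, (nb_norm (V t) l).2 1]

theorem ip_comb {ι : Type} (s : Finset ι) (c : ι → ℝ) {z ζ : Fin 2 → P → ℝ}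
    {N : ι → Fin 2 → P → ℝ} (hz : ∀ j, M2 (z j)) (hN : ∀ i ∈ s, ∀ j, M2 (N i j))
    (hζ : ∀ j, M2 (ζ j)) :
    ip (fun j p => -1 * z j p - ∑ i ∈ s, c i * N i j p) ζ
      = -ip z ζ + ∑ i ∈ s, c i * -ip (N i) ζ := by
  have e : ∀ j, ∫ x, (-1 * z j x - ∑ i ∈ s, c i * N i j x) * ζ j x
      = -(∫ x, z j x * ζ j x) - ∑ i ∈ s, c i * ∫ x, N i j x * ζ j x := fun j => by
    have i1 : ∀ i ∈ s, Integrable fun x => c i * (N i j x * ζ j x) := fun i hi =>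
      ((hN i hi j).int_mul (hζ j)).const_mul _
    have i2 : Integrable fun x => -(z j x * ζ j x) := ((hz j).int_mul (hζ j)).neg
    simp only [sub_mul, Finset.sum_mul, mul_assoc, neg_mul, one_mul]
    rw [integral_sub i2 (integrable_finsetSum _ i1), integral_neg, integral_finsetSum _ i1]
    simp only [integral_const_mul]
  simp only [ip, e, Fin.sum_univ_two, mul_neg, mul_add, Finset.sum_neg_distrib,
    Finset.sum_add_distrib, neg_add]
  ring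

theorem main (hb : HbS) (hp : PrdS) (hm : MixS) (h2 : H2S) (hj : JetEqS) {r : ℝ}
    {g : Fin 2 → P → ℝ} {G : P → ℝ} {U : ℝ → E6} (h : Lv r g G U) (t₀ : ℝ) (m : ℕ) :
    ∀ r', 0 < r' → r' < r → Reg t₀ r' (iteratedDeriv m U) := by
  have ct : ∀ k, Continuous (iteratedDeriv k U) := fun k => (sm_iter h.sm k).continuous
  have vz : ∀ k t, iteratedDeriv k U t ∈ VZ univ := fun k t =>
    iter_mem (isClosed_VZ _) k (Eventually.of_forall h.vf)
  induction m using Nat.strong_induction_on with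
  | _ m ih =>
  intro r' h0 h1
  rcases Nat.eq_zero_or_pos m with rfl | m0
  · refine step h2 h0 h1 (ϑ := 1) (by simp) (ct 0) (vz 0)
      (f := fun t j p => g j p - vl (deriv U t) j p) (fun j => (Lb.const (h.mg j)).sub ?_)
      (Eventually.of_forall h.eq)
    simpa only [iteratedDeriv_one] using Lb.vl (t₀ := t₀) (ct 1) j
  obtain ⟨ρ, h3, h4⟩ := exists_between h1
  have h5 := h0.trans h3
  let N : ℕ → ℝ → Fin 2 → P → ℝ := fun i t j p => ∑ l, (Q ρ).indicator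
    (fun p => vl (iteratedDeriv i U t) l p * gj (iteratedDeriv (m - i) U t) j l p) p
  have hN : ∀ i ∈ Finset.range (m + 1), ∀ j, Lb t₀ fun t => N i t j := fun i hi j => by
    refine Lb.sum fun l _ => ?_
    rcases (Nat.lt_succ_iff.1 (Finset.mem_range.1 hi)).lt_or_eq with a | a
    · exact prodA hb hm (ct _) (ct _) (vz _) (ih i a ρ h5 h4) l j l
    · exact prodB hb hm (ct _) (ct _) (vz _) (ih (m - i) (by omega) ρ h5 h4) l j l
  have hN' : ∀ᶠ t in 𝓝 t₀, ∀ i ∈ Finset.range (m + 1), ∀ j, M2 (N i t j) :=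
    (eventually_all_finset _).2 fun i hi => eventually_all.2 fun j => by
      obtain ⟨M, -, hM⟩ := hN i hi j
      exact hM.mono fun _ a => a.1
  refine step h2 h0 h3 (ϑ := 0) (by simp) (ct m) (vz m)
    (f := fun t j p => -1 * vl (iteratedDeriv (m + 1) U t) j p
      - ∑ i ∈ Finset.range (m + 1), (m.choose i : ℝ) * N i t j p)
    (fun j => ((Lb.vl (ct _) j).cmul _).sub (Lb.sum fun i hi => (hN i hi j).cmul _))
    (hN'.mono fun t ht θ hθ => ?_)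
  have e := hj r g G U h m t θ (hθ.mono (Q_mono h4.le))
  have tz := fun j => hθ.perp Gam.zero j
  have e' : ∀ i, tl (fun _ => 0) (vl (iteratedDeriv i U t)) (vl (iteratedDeriv (m - i) U t))
      (perp (fun _ => 0) θ) = -ip (N i t) (perp (fun _ => 0) θ) := fun i => by
    rw [hp.2 _ _ _ _ _ _ Gam.zero (mem_VZ.1 (vz i t)).1 (mem_VZ.1 (vz (m - i) t)).1.h1
      fun j => (tz j).top]
    refine congrArg _ (Finset.sum_congr rfl fun j _ => int_test_congr (O := Q ρ)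
      (fun _ => (tz j).off) (Eventually.of_forall fun p hq => ?_))
    simp only [N, indicator_of_mem hq]
  unfold E2
  rw [ip_comb _ _ (m2_vl _) ht fun j => (tz j).m2]
  simp only [e', if_neg m0.ne'] at e
  linarith

end Boot0

theorem rowBoot0 : OfBoot0 := fun hb hp hm h2 hj _ r' _ _ _ h h0 h1 j i m t₀ _ => by
  obtain ⟨M, m0, hM⟩ := Boot0.main hb hp hm h2 hj h t₀ m r' h0 h1
  refine ⟨M, m0, hM.mono fun t a => ?_⟩
  rw [iter_cp h.sm]
  exact a j i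

end Pool.Agent.MP_ed9623_an.H77
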