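import Pool.Agent.MP_ed9623_an.H77.SpecX

/-! The classical solution in the zone where the half sum vanishes. -/

open MeasureTheory Filter Topology Set
open scoped ContDiff

namespace Pool.Agent.MP_ed9623_an.H77

open H64

open TriB in
theorem rowZone : OfZone := by
  intro hTh hZ1 hZ2 hCl ρ x τ γ r R ε t₀ g a w hρ hC hb hP hε hv'
  obtain ⟨I, hI'⟩ : ∃ I : Set ℝ, I = univ := ⟨_, rfl⟩
  have hI : IsOpen I := hI' ▸ isOpen_univ
  have hm : ∀ t, t ∈ I := fun t => hI' ▸ mem_univ t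
  have hv : ∀ t ∈ I, ∀ j, Van (Metric.ball x ε) (vl (a t) j) := fun t _ => hv' t
  have H : ∀ t ∈ I, ∀ ζ, (∀ j, Test ({x | ρ x < 0} ∩ Metric.ball x ε) (ζ j)) →
      ip (vl (deriv w t)) ζ + di (fun _ => 0) (gj (w t)) ζ = 0 := fun t ht ζ hζ => by
    have := hP.e1 t ζ fun j => (hζ j).mono inter_subset_left
    have b := tl_van (fun j => (hζ j).mono inter_subset_right) (hv t ht) (vl (w t))
    rwa [E1, b.1, b.2, sub_zero, sub_zero] at this
  have H1 : ∀ t ∈ I, ∀ j φ, Test ({x | ρ x < 0} ∩ Metric.ball x ε) φ →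
      (∫ x, vl (deriv w t) j x * φ x) + ∑ i, ∫ x, gj (w t) j i x * pd (ee i) φ x = 0 := by
    intro t ht j φ hφ
    have := H t ht (Pi.single j φ) fun l => by
      by_cases hl : l = j
      · rw [hl, Pi.single_eq_same]; exact hφ
      · rw [Pi.single_eq_of_ne hl]; exact Test.zero _
    have z : ∀ e : P, pd e (0 : P → ℝ) = 0 := pd_zero_fun
    fin_cases j <;> simpa [ip, di, dd_zero, z] using this
  have H2 : ∀ t ∈ I, ∀ θ, Test ({x | ρ x < 0} ∩ Metric.ball x ε) θ →
      tl (fun _ => 0) (vl (w t)) (vl (w t)) (perp (fun _ => 0) θ)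
        = -ip g (perp (fun _ => 0) θ) := by
    intro t ht θ hθ
    have hζ := hθ.perp Gam.zero
    have hζ' := fun j => (hζ j).mono inter_subset_right
    obtain ⟨v1, v2⟩ := van_all Metric.isOpen_ball hI hP.ma hv ht
    have := (hP.p1 t).eq θ (hθ.mono inter_subset_left)
    rw [E2, di_loc (d' := gj (w t)) hζ' fun j i => Eventually.mono (v1 j i) fun p b hp => by
        rw [b hp, zero_add],
      tl_loc (u' := vl (w t)) (w' := vl (w t)) hζ' fun j i => by
        filter_upwards [hv t ht i, hv t ht j] with p b c hp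
        rw [b hp, c hp, zero_add, zero_add],
      ip_loc (u' := fun j p => g j p - vl (deriv w t) j p) hζ' fun j =>
        Eventually.mono (v2 j) fun p b hp => by rw [b hp, zero_add]] at this
    have e : ip (fun j p => g j p - vl (deriv w t) j p) (perp (fun _ => 0) θ)
        = ip g (perp (fun _ => 0) θ) - ip (vl (deriv w t)) (perp (fun _ => 0) θ) := by
      rw [ip, ip, ip, ← Finset.sum_sub_distrib]
      refine Finset.sum_congr rfl fun j _ => ?_
      simp only [sub_mul]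
      exact integral_sub ((hP.mg j).int_mul (hζ j).m2) ((m2_vl _ j).int_mul (hζ j).m2)
    linarith [H t ht _ hζ]
  obtain ⟨r₁, r0, r1, hr⟩ := hC.small hε
  obtain ⟨-, -, ⟨T, hT⟩, -⟩ := hTh x τ γ hC.un hC.gam
  obtain ⟨ε', W, e0, e1, hW⟩ := hZ2 ρ x τ γ (r₁ / 2) t₀ ε w I T hρ
    (hC.mono (by linarith) (by linarith)) (fun p hp => hb p (Q_mono (by linarith) hp)) hP.sw
    (fun t => (hP.mw t).1) hI (hm _) hε hT
    (hZ1 _ x τ γ r₁ (r₁ / 2) w I T (hC.mono r0 r1) (by linarith) (by linarith) hP.sw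
      (fun t => (hP.mw t).1) hI hT fun t ht j φ hφ =>
        H1 t ht j φ (hφ.mono (inter_subset_inter_right _ hr)))
  have s2 : {x | ρ x < 0} ∩ Metric.ball x ε' ⊆ {x | ρ x < 0} ∩ Metric.ball x ε :=
    inter_subset_inter_right _ (Metric.ball_subset_ball e1)
  exact ⟨ε', W, e0, hW, hCl ρ x t₀ ε' w W g hρ hP.sw
    (fun t => ⟨⟨(hP.mw t).1.1, fun _ => Eventually.of_forall fun p hp => absurd (mem_univ p) hp⟩,
      (hP.mw t).2⟩) hW (fun t _ j φ hφ => H1 t (hm t) j φ (hφ.mono s2))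
    fun t _ θ hθ => H2 t (hm t) θ (hθ.mono s2)⟩

end Pool.Agent.MP_ed9623_an.H77
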